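import Pool.Agent.helper7.OC.Defs

/-!
# Odd values of the partition function: BB0, Jacobi symbols
-/

set_option autoImplicit false

open Finset

namespace Pool.Agent.helper7.OC

open NumberTheorySymbols

/-- The Jacobi symbol as a multiplicative character. -/
noncomputable def jacChar (R : Type) [CommRing R] (m : ℕ) [NeZero m] (h1 : 1 < m) :
    MulChar (ZMod m) R where
  toFun a := ((jacobiSym (a.val : ℤ) m : ℤ) : R)
  map_one' := by
    have : Fact (1 < m) := ⟨h1⟩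
    simp [ZMod.val_one]
  map_mul' a b := by
    have h : jacobiSym (((a * b).val : ℕ) : ℤ) m = jacobiSym ((a.val : ℤ) * (b.val : ℤ)) m := by
      rw [ZMod.val_mul, jacobiSym.mod_left ((a.val : ℤ) * (b.val : ℤ)) m]
      push_cast
      rfl
    simp only [h, jacobiSym.mul_left]
    push_cast
    rfl
  map_nonunit' a ha := by
    have h : jacobiSym (a.val : ℤ) m = 0 := by
      rw [jacobiSym.eq_zero_iff_not_coprime]
      intro hc
      apply ha
      have h2 : a.val.Coprime m := by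
        rw [Int.gcd_natCast_natCast] at hc
        exact hc
      have h3 := (ZMod.isUnit_iff_coprime a.val m).2 h2
      rwa [ZMod.natCast_zmod_val] at h3
    rw [h, Int.cast_zero]

lemma jacChar_natCast (R : Type) [CommRing R] (m : ℕ) [NeZero m] (h1 : 1 < m) (n : ℕ) :
    jacChar R m h1 (n : ZMod m) = ((jacobiSym (n : ℤ) m : ℤ) : R) := by
  show ((jacobiSym (((n : ZMod m).val : ℕ) : ℤ) m : ℤ) : R) = _
  rw [ZMod.val_natCast, jacobiSym.mod_left (n : ℤ) m]
  push_cast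
  rfl

/-- an element that is `1` modulo `e` with symbol `-1` modulo `m`, `m` odd squarefree,
for `e` missing a prime factor of `m` -/
lemma exists_symbol (m e : ℕ) (ho : Odd m) (p : ℕ) (hp : p.Prime)
    (hpm : p ∣ m) (hpe : ¬ p ∣ e) (hme : m / p ∣ e) :
    ∃ a : ℕ, a ≡ 1 [MOD e] ∧ a.Coprime p ∧ jacobiSym (a : ℤ) m = -1 := by
  have : Fact p.Prime := ⟨hp⟩
  have hp2 : p ≠ 2 := by
    rintro rfl
    exact (Nat.not_even_iff_odd.2 ho) (even_iff_two_dvd.2 hpm)
  obtain ⟨x, hx⟩ := FiniteField.exists_nonsquare (F := ZMod p) (by rwa [ZMod.ringChar_zmod_n])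
  have hcop : Nat.Coprime e p := ((Nat.Prime.coprime_iff_not_dvd hp).2 hpe).symm
  obtain ⟨a, ha1, ha2⟩ := Nat.chineseRemainder hcop 1 x.val
  have hax : (a : ZMod p) = x := by
    have := (ZMod.natCast_eq_natCast_iff a x.val p).2 ha2
    rw [this, ZMod.natCast_zmod_val]
  have hx0 : x ≠ 0 := by
    rintro rfl
    exact hx ⟨0, by simp⟩
  refine ⟨a, ha1, ?_, ?_⟩
  · refine ((Nat.Prime.coprime_iff_not_dvd hp).2 ?_).symm
    intro hd
    apply hx0
    rw [← hax]
    exact (ZMod.natCast_eq_zero_iff a p).2 hd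
  · obtain ⟨k, hk⟩ := hpm
    have hk0 : k ≠ 0 := by
      rintro rfl
      rw [mul_zero] at hk
      rw [hk] at ho
      exact (Nat.not_even_iff_odd.2 ho) (by simp)
    have : NeZero k := ⟨hk0⟩
    have : NeZero p := ⟨hp.ne_zero⟩
    have hkm : m / p = k := by rw [hk]; exact Nat.mul_div_cancel_left _ hp.pos
    rw [hkm] at hme
    rw [hk, jacobiSym.mul_right]
    have h1 : jacobiSym (a : ℤ) p = -1 := by
      rw [← jacobiSym.legendreSym.to_jacobiSym]
      rw [legendreSym.eq_neg_one_iff]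
      rw [Int.cast_natCast, hax]
      exact hx
    have h2 : jacobiSym (a : ℤ) k = 1 := by
      have h3 : a ≡ 1 [MOD k] := ha1.of_dvd hme
      have h4 : (a : ℤ) % k = 1 % k := by
        have := h3
        unfold Nat.ModEq at this
        exact_mod_cast this
      rw [jacobiSym.mod_left, h4, ← jacobiSym.mod_left, jacobiSym.one_left]
    rw [h1, h2, mul_one]

theorem jac_char (m : ℕ) (h : Squarefree m) (ho : Odd m) (h1 : 1 < m) :
    ∃ χ : DirichletCharacter ℂ m, χ.IsPrimitive ∧ ∀ n : ℕ, χ n = (jacobiSym (n : ℤ) m : ℂ) := by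
  have hm0 : NeZero m := ⟨by omega⟩
  refine ⟨jacChar ℂ m h1, ?_, fun n => jacChar_natCast ℂ m h1 n⟩
  set χ : DirichletCharacter ℂ m := jacChar ℂ m h1 with hχ
  by_contra hprim
  have hcd := χ.conductor_dvd_level
  have hne : χ.conductor ≠ m := hprim
  obtain ⟨k, hk⟩ := hcd
  have hk1 : k ≠ 1 := by
    rintro rfl
    rw [mul_one] at hk
    exact hne hk.symm
  obtain ⟨p, hp, hpk⟩ := Nat.exists_prime_and_dvd hk1
  obtain ⟨l, hl⟩ := hpk
  have hmk : m = p * (χ.conductor * l) := hk.trans (by rw [hl]; ring)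
  have hpm : p ∣ m := ⟨χ.conductor * l, hmk⟩
  have hmp : m / p = χ.conductor * l := Nat.div_eq_of_eq_mul_right hp.pos hmk
  have hpe : ¬ p ∣ m / p := by
    intro hd
    obtain ⟨t, ht⟩ := hd
    have h5 : p * p ∣ m := ⟨t, by rw [mul_assoc, ← ht, Nat.mul_div_cancel' hpm]⟩
    exact hp.one_lt.ne' (Nat.isUnit_iff.1 (h p h5))
  obtain ⟨a, ha1, ha2, ha3⟩ := exists_symbol m (m / p) ho p hp hpm hpe dvd_rfl
  -- evaluate
  have hac : a.Coprime m := by
    have h6 : a.Coprime (m / p) := by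
      have := ha1.gcd_eq
      rw [Nat.gcd_one_left] at this
      exact this
    have h7 : m = m / p * p := (Nat.div_mul_cancel hpm).symm
    rw [h7]
    exact Nat.Coprime.mul_right h6 ha2
  have hft := χ.factorsThrough_conductor
  have hker := (DirichletCharacter.factorsThrough_iff_ker_unitsMap hft.dvd).1 hft
  have hu : ZMod.unitOfCoprime a hac ∈ (ZMod.unitsMap hft.dvd).ker := by
    rw [MonoidHom.mem_ker]
    refine Units.ext ?_
    rw [ZMod.unitsMap_val, ZMod.coe_unitOfCoprime, Units.val_one]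
    rw [ZMod.cast_natCast hft.dvd]
    have h8 : a ≡ 1 [MOD χ.conductor] := ha1.of_dvd (by rw [hmp]; exact dvd_mul_right _ _)
    have := (ZMod.natCast_eq_natCast_iff a 1 χ.conductor).2 h8
    rw [this, Nat.cast_one]
  have h9 := hker hu
  rw [MonoidHom.mem_ker] at h9
  have h10 : χ (a : ZMod m) = 1 := by
    have h11 := congrArg Units.val h9
    rw [MulChar.coe_toUnitHom, ZMod.coe_unitOfCoprime, Units.val_one] at h11
    exact h11
  rw [hχ, jacChar_natCast, ha3] at h10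
  norm_num at h10

theorem J_vals (ℓ m : ℕ) : J ℓ m = 0 ∨ J ℓ m = 1 ∨ J ℓ m = -1 := by
  unfold J
  rcases jacobiSym.trichotomy (ℓ : ℤ) m with h | h | h
  · left; rw [h]; simp
  · right; left; rw [h]; simp
  · right; right; rw [h]; simp

/-- passing from `M = m f²` to its squarefree kernel -/
theorem J_kernel (ℓ m f : ℕ) (hℓ : ℓ.Prime) (hm : m ≠ 0) (hf : f ≠ 0) :
    J ℓ (m * f ^ 2) = if ℓ ∣ f then 0 else J ℓ m := by
  have : NeZero m := ⟨hm⟩
  have : NeZero f := ⟨hf⟩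
  have : NeZero (f ^ 2) := ⟨pow_ne_zero _ hf⟩
  unfold J
  rw [jacobiSym.mul_right, jacobiSym.pow_right]
  split_ifs with h
  · have : jacobiSym (ℓ : ℤ) f = 0 := by
      rw [jacobiSym.eq_zero_iff_not_coprime, Int.gcd_natCast_natCast]
      intro hc
      exact (Nat.Prime.coprime_iff_not_dvd hℓ).1 hc h
    rw [this]; simp
  · have : jacobiSym (ℓ : ℤ) f ^ 2 = 1 := by
      apply jacobiSym.sq_one
      rw [Int.gcd_natCast_natCast]
      exact (Nat.Prime.coprime_iff_not_dvd hℓ).2 h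
    rw [this, mul_one]

/-- reciprocity: `(ℓ | M) = (-M | ℓ)` for `M ≡ 3 mod 4` -/
lemma J_recip (ℓ M : ℕ) (hℓ : ℓ.Prime) (h2 : ℓ ≠ 2) (hM : M % 4 = 3) :
    jacobiSym (ℓ : ℤ) M = jacobiSym (-(M : ℤ)) ℓ := by
  have hℓo : Odd ℓ := hℓ.odd_of_ne_two h2
  have hMo : Odd M := by
    rw [Nat.odd_iff]; omega
  rw [jacobiSym.quadratic_reciprocity hℓo hMo, jacobiSym.neg _ hℓo]
  congr 1
  have h3 : Odd (M / 2) := by rw [Nat.odd_iff]; omega
  rw [mul_comm, pow_mul, h3.neg_one_pow, ZMod.χ₄_eq_neg_one_pow (Nat.odd_iff.1 hℓo)]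

/-- number of solutions of `M + (g y)² ≡ 0 mod ℓ` -/
theorem roots (ℓ M g : ℕ) (hℓ : ℓ.Prime) (h2 : ℓ ≠ 2) (hM : M % 4 = 3) (hg : ¬ ℓ ∣ g) :
    (((range ℓ).filter fun y => ℓ ∣ M + (g * y) ^ 2).card : ℝ) = 1 + J ℓ M := by
  have : Fact ℓ.Prime := ⟨hℓ⟩
  have hg0 : (g : ZMod ℓ) ≠ 0 := by
    intro h0
    exact hg ((ZMod.natCast_eq_zero_iff g ℓ).1 h0)
  unfold J
  rw [J_recip ℓ M hℓ h2 hM]
  have h3 := legendreSym.card_sqrts ℓ h2 (-(M : ℤ))
  rw [jacobiSym.legendreSym.to_jacobiSym] at h3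
  have h4 : ((range ℓ).filter fun y => ℓ ∣ M + (g * y) ^ 2).card =
      ({x : ZMod ℓ | x ^ 2 = ((-(M : ℤ) : ℤ) : ZMod ℓ)}.toFinset).card := by
    refine Finset.card_bij (fun y _ => (g : ZMod ℓ) * (y : ZMod ℓ)) ?_ ?_ ?_
    · intro y hy
      rw [mem_filter] at hy
      rw [Set.mem_toFinset, Set.mem_ofPred_eq]
      have h5 := (ZMod.natCast_eq_zero_iff _ ℓ).2 hy.2
      push_cast at h5 ⊢
      linear_combination h5
    · intro y hy z hz hyz
      rw [mem_filter, mem_range] at hy hz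
      have h5 : (y : ZMod ℓ) = z := mul_left_cancel₀ hg0 hyz
      have h6 := (ZMod.natCast_eq_natCast_iff y z ℓ).1 h5
      exact Nat.ModEq.eq_of_lt_of_lt h6 hy.1 hz.1
    · intro x hx
      rw [Set.mem_toFinset, Set.mem_ofPred_eq] at hx
      refine ⟨((g : ZMod ℓ)⁻¹ * x).val, ?_, ?_⟩
      · rw [mem_filter, mem_range]
        refine ⟨ZMod.val_lt _, ?_⟩
        rw [← ZMod.natCast_eq_zero_iff]
        push_cast
        rw [ZMod.natCast_zmod_val, mul_inv_cancel_left₀ hg0, hx]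
        push_cast
        ring
      · rw [ZMod.natCast_zmod_val, mul_inv_cancel_left₀ hg0]
  rw [h4]
  have h5 : (((({x : ZMod ℓ | x ^ 2 = ((-(M : ℤ) : ℤ) : ZMod ℓ)}.toFinset).card : ℤ)) : ℝ) =
      ((J(-(M : ℤ) | ℓ) + 1 : ℤ) : ℝ) := congrArg (Int.cast : ℤ → ℝ) h3
  rw [Int.cast_natCast, Int.cast_add, Int.cast_one] at h5
  rw [h5, add_comm]

/-- a prime dividing a value `M + (g y)²` has symbol `≠ -1` -/
theorem served (ℓ M g y : ℕ) (hℓ : ℓ.Prime) (h2 : ℓ ≠ 2) (hM : M % 4 = 3)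
    (h : ℓ ∣ M + (g * y) ^ 2) : J ℓ M ≠ -1 := by
  have : Fact ℓ.Prime := ⟨hℓ⟩
  unfold J
  rw [J_recip ℓ M hℓ h2 hM, ← jacobiSym.legendreSym.to_jacobiSym]
  intro h3
  have h4 : legendreSym ℓ (-(M : ℤ)) = -1 := by exact_mod_cast h3
  rw [legendreSym.eq_neg_one_iff] at h4
  apply h4
  refine ⟨(g : ZMod ℓ) * y, ?_⟩
  have h5 := (ZMod.natCast_eq_zero_iff _ ℓ).2 h
  push_cast at h5 ⊢
  linear_combination -h5

end Pool.Agent.helper7.OC
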