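import Pool.Agent.helper12.OC.BB0

/-!
# Odd values of the partition function: BB3e, the characters modulo `8 m`
-/

set_option autoImplicit false

open Finset

namespace Pool.Agent.helper7.OC

open NumberTheorySymbols

/-- sufficient conditions for `RC` -/
lemma bb3e_rc_of {q : ℕ} (hq : 1 ≤ q) (ψ : ℕ → ℝ) (h1 : ψ 1 = 1)
    (hm : ∀ m n, ψ (m * n) = ψ m * ψ n) (hv : ∀ n, ψ n = 0 ∨ ψ n = 1 ∨ ψ n = -1)
    (hs : ∀ n, ψ n ≠ 0 ↔ n.Coprime q) (hp : ∀ n, ψ (n % q) = ψ n) (n0 : ℕ) (h0 : ψ n0 = -1) :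
    RC q ψ := by
  have hper : ∀ n, ψ (q + n) = ψ n := by
    intro n
    rw [← hp (q + n), Nat.add_mod_left, hp]
  have hc0 : n0.Coprime q := (hs n0).1 (by rw [h0]; norm_num)
  -- the sum over a period
  have hper0 : ∑ n ∈ range q, ψ n = 0 := by
    have hmaps : Set.MapsTo (fun n => n0 * n % q) (range q : Finset ℕ) (range q : Finset ℕ) := by
      intro n _
      simp only [coe_range, Set.mem_Iio]
      exact Nat.mod_lt _ (by omega)
    have hinj : Set.InjOn (fun n => n0 * n % q) (range q : Finset ℕ) := by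
      intro a ha b hb hab
      simp only [coe_range, Set.mem_Iio] at ha hb
      have h2 : n0 * a ≡ n0 * b [MOD q] := hab
      have h3 : a ≡ b [MOD q] := Nat.ModEq.cancel_left_of_coprime (by
        rw [Nat.gcd_comm]; exact hc0) h2
      exact Nat.ModEq.eq_of_lt_of_lt h3 ha hb
    have hsurj : Set.SurjOn (fun n => n0 * n % q) (range q : Finset ℕ) (range q : Finset ℕ) :=
      Finset.surjOn_of_injOn_of_card_le _ hmaps hinj le_rfl
    have h2 : ∑ n ∈ range q, ψ (n0 * n % q) = ∑ n ∈ range q, ψ n := by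
      refine Finset.sum_nbij (fun n => n0 * n % q) ?_ hinj hsurj (fun n _ => rfl)
      intro n hn
      exact hmaps hn
    have h3 : ∑ n ∈ range q, ψ (n0 * n % q) = - ∑ n ∈ range q, ψ n := by
      rw [← Finset.sum_neg_distrib]
      refine Finset.sum_congr rfl fun n _ => ?_
      rw [hp, hm, h0]; ring
    linarith
  have hred : ∀ t r : ℕ, ∑ n ∈ range (q * t + r), ψ n = ∑ n ∈ range r, ψ n := by
    intro t
    induction t with
    | zero => intro r; simp
    | succ t ih =>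
      intro r
      have h4 : q * (t + 1) + r = q + (q * t + r) := by ring
      rw [h4, Finset.sum_range_add, hper0, zero_add]
      rw [← ih r]
      exact Finset.sum_congr rfl fun n _ => hper n
  refine ⟨h1, hm, hv, hs, fun x => ?_⟩
  have h5 : x + 1 = q * ((x + 1) / q) + (x + 1) % q := (Nat.div_add_mod _ _).symm
  rw [h5, hred]
  calc |∑ n ∈ range ((x + 1) % q), ψ n| ≤ ∑ n ∈ range ((x + 1) % q), |ψ n| :=
        Finset.abs_sum_le_sum_abs _ _
    _ ≤ ∑ _n ∈ range ((x + 1) % q), (1 : ℝ) := by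
        refine Finset.sum_le_sum fun n _ => ?_
        rcases hv n with h | h | h <;> rw [h] <;> norm_num
    _ = ((x + 1) % q : ℕ) := by simp
    _ ≤ q := by
        exact_mod_cast (Nat.mod_lt _ (by omega)).le

/-- completely multiplicative periodic sign functions -/
structure Bb3eGood (q : ℕ) (g : ℕ → ℤ) : Prop where
  one : g 1 = 1
  mul : ∀ m n, g (m * n) = g m * g n
  vals : ∀ n, n.Coprime q → g n = 1 ∨ g n = -1
  per : ∀ n, g (n % q) = g n

lemma Bb3eGood.prod {q : ℕ} {g h : ℕ → ℤ} (hg : Bb3eGood q g) (hh : Bb3eGood q h) :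
    Bb3eGood q (fun n => g n * h n) where
  one := by rw [hg.one, hh.one]; norm_num
  mul m n := by rw [hg.mul, hh.mul]; ring
  vals n hn := by
    rcases hg.vals n hn with h1 | h1 <;> rcases hh.vals n hn with h2 | h2 <;> simp [h1, h2]
  per n := by rw [hg.per, hh.per]

/-- restriction to the numbers coprime to `q` -/
noncomputable def bb3eR (q : ℕ) (g : ℕ → ℤ) : ℕ → ℝ := fun n => if n.Coprime q then (g n : ℝ) else 0

lemma bb3eR_mul (q : ℕ) (g h : ℕ → ℤ) :
    (fun n => bb3eR q g n * bb3eR q h n) = bb3eR q (fun n => g n * h n) := by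
  funext n
  unfold bb3eR
  split_ifs
  · push_cast; rfl
  · simp

lemma Bb3eGood.rc {q : ℕ} (hq : 1 ≤ q) {g : ℕ → ℤ} (hg : Bb3eGood q g) (n0 : ℕ)
    (hn0 : n0.Coprime q) (h0 : g n0 = -1) : RC q (bb3eR q g) := by
  refine bb3e_rc_of hq _ ?_ ?_ ?_ ?_ ?_ n0 ?_
  · unfold bb3eR
    rw [if_pos (Nat.coprime_one_left q), hg.one]; simp
  · intro m n
    unfold bb3eR
    by_cases h1 : m.Coprime q
    · by_cases h2 : n.Coprime q
      · rw [if_pos h1, if_pos h2, if_pos (Nat.Coprime.mul_left h1 h2), hg.mul]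
        push_cast; rfl
      · rw [if_neg h2, if_neg (fun h => h2 (Nat.Coprime.coprime_mul_left h)), mul_zero]
    · rw [if_neg h1, if_neg (fun h => h1 (Nat.Coprime.coprime_mul_right h)), zero_mul]
  · intro n
    unfold bb3eR
    split_ifs with h1
    · rcases hg.vals n h1 with h | h <;> rw [h] <;> simp
    · exact Or.inl rfl
  · intro n
    unfold bb3eR
    split_ifs with h1
    · refine ⟨fun _ => h1, fun _ => ?_⟩
      rcases hg.vals n h1 with h | h <;> rw [h] <;> simp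
    · exact ⟨fun h => absurd rfl h, fun h => absurd h h1⟩
  · intro n
    unfold bb3eR
    have h1 : (n % q).Coprime q ↔ n.Coprime q := by
      unfold Nat.Coprime
      rw [← Nat.gcd_rec, Nat.gcd_comm]
    simp only [h1, hg.per]
  · unfold bb3eR
    rw [if_pos hn0, h0]; simp

lemma bb3e_chi4 (m : ℕ) : Bb3eGood (8 * m) (fun n => ZMod.χ₄ (n : ZMod 4)) where
  one := by simp
  mul a b := by push_cast; rw [map_mul]
  vals n hn := by
    have h2 : n % 2 = 1 := by
      rcases Nat.mod_two_eq_zero_or_one n with h | h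
      · exfalso
        have h3 : 2 ∣ Nat.gcd n (8 * m) := Nat.dvd_gcd (Nat.dvd_of_mod_eq_zero h) ⟨4 * m, by ring⟩
        rw [hn] at h3
        omega
      · exact h
    rw [ZMod.χ₄_nat_eq_if_mod_four]
    split_ifs with h4 h5
    · omega
    · exact Or.inl rfl
    · exact Or.inr rfl
  per n := by
    have : ((n % (8 * m) : ℕ) : ZMod 4) = (n : ZMod 4) := by
      rw [ZMod.natCast_eq_natCast_iff]
      exact (Nat.mod_modEq n (8 * m)).of_dvd ⟨2 * m, by ring⟩
    rw [this]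

lemma bb3e_chi8 (m : ℕ) : Bb3eGood (8 * m) (fun n => ZMod.χ₈ (n : ZMod 8)) where
  one := by simp
  mul a b := by push_cast; rw [map_mul]
  vals n hn := by
    have h2 : n % 2 = 1 := by
      rcases Nat.mod_two_eq_zero_or_one n with h | h
      · exfalso
        have h3 : 2 ∣ Nat.gcd n (8 * m) := Nat.dvd_gcd (Nat.dvd_of_mod_eq_zero h) ⟨4 * m, by ring⟩
        rw [hn] at h3
        omega
      · exact h
    rw [ZMod.χ₈_nat_eq_if_mod_eight]
    split_ifs with h4 h5
    · omega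
    · exact Or.inl rfl
    · exact Or.inr rfl
  per n := by
    have : ((n % (8 * m) : ℕ) : ZMod 8) = (n : ZMod 8) := by
      rw [ZMod.natCast_eq_natCast_iff]
      exact (Nat.mod_modEq n (8 * m)).of_dvd ⟨m, by ring⟩
    rw [this]

lemma bb3e_jac (m : ℕ) (hm : m ≠ 0) : Bb3eGood (8 * m) (fun n => jacobiSym (n : ℤ) m) where
  one := by simp [jacobiSym.one_left]
  mul a b := by push_cast; rw [jacobiSym.mul_left]
  vals n hn := by
    refine jacobiSym.eq_one_or_neg_one ?_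
    rw [Int.gcd_natCast_natCast]
    exact Nat.Coprime.coprime_mul_left_right hn
  per n := by
    have h1 : n % (8 * m) ≡ n [MOD m] := (Nat.mod_modEq n (8 * m)).of_dvd ⟨8, by ring⟩
    have h2 : ((n % (8 * m) : ℕ) : ℤ) % m = (n : ℤ) % m := by
      unfold Nat.ModEq at h1
      exact_mod_cast h1
    rw [jacobiSym.mod_left, h2, ← jacobiSym.mod_left]

/-- BB3e: the characters. -/
theorem chars (m : ℕ) (hs : Squarefree m) (hm : m % 8 = 7) : ∃ a b c : ℕ → ℝ,
    RC (8 * m) a ∧ RC (8 * m) b ∧ RC (8 * m) c ∧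
    RC (8 * m) (fun n => a n * b n) ∧ RC (8 * m) (fun n => a n * c n) ∧
    RC (8 * m) (fun n => b n * c n) ∧ RC (8 * m) (fun n => a n * (b n * c n)) ∧
    ∀ p : ℕ, p.Prime → a p = 1 → b p = -1 → c p = -1 → p % 8 = 5 ∧ jacobiSym (p : ℤ) m = -1 := by
  have hm0 : m ≠ 0 := by omega
  have hq : 1 ≤ 8 * m := by omega
  have ho : Odd m := by rw [Nat.odd_iff]; omega
  have hcop8 : Nat.Coprime 8 m := by
    have h1 : Nat.Coprime 2 m := by
      rw [Nat.coprime_two_left]; exact ho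
    exact Nat.Coprime.pow_left 3 h1
  -- special elements
  have hsp : ∀ s : ℕ, s.Coprime 8 → ∃ n, n % 8 = s % 8 ∧ n.Coprime (8 * m) ∧
      jacobiSym (n : ℤ) m = 1 := by
    intro s hs8
    obtain ⟨n, hn1, hn2⟩ := Nat.chineseRemainder hcop8 s 1
    refine ⟨n, hn1, ?_, ?_⟩
    · refine Nat.Coprime.mul_right ?_ ?_
      · have := hn1.gcd_eq
        unfold Nat.Coprime
        rw [this]; exact hs8
      · have := hn2.gcd_eq
        unfold Nat.Coprime
        rw [this]; exact Nat.gcd_one_left m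
    · have h4 : (n : ℤ) % m = 1 % m := by
        unfold Nat.ModEq at hn2
        exact_mod_cast hn2
      rw [jacobiSym.mod_left, h4, ← jacobiSym.mod_left, jacobiSym.one_left]
  obtain ⟨n3, hn3, hn3c, hn3j⟩ := hsp 3 (by norm_num)
  obtain ⟨n5, hn5, hn5c, hn5j⟩ := hsp 5 (by norm_num)
  obtain ⟨p, hp, hpm⟩ := Nat.exists_prime_and_dvd (show m ≠ 1 by omega)
  have hp2 : p ≠ 2 := by
    rintro rfl
    exact (Nat.not_even_iff_odd.2 ho) (even_iff_two_dvd.2 hpm)
  have hpe : ¬ p ∣ 8 * (m / p) := by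
    intro hd
    rcases (Nat.Prime.dvd_mul hp).1 hd with h | h
    · exact hp2 ((Nat.prime_dvd_prime_iff_eq hp Nat.prime_two).1
        (hp.dvd_of_dvd_pow (show p ∣ 2 ^ 3 from h)))
    · obtain ⟨t, ht⟩ := h
      have h5 : p * p ∣ m := ⟨t, by rw [mul_assoc, ← ht, Nat.mul_div_cancel' hpm]⟩
      exact hp.one_lt.ne' (Nat.isUnit_iff.1 (hs p h5))
  obtain ⟨n1, hn1, hn1p, hn1j⟩ := exists_symbol m (8 * (m / p)) ho p hp hpm hpe ⟨8, by ring⟩
  have hn18 : n1 % 8 = 1 := hn1.of_dvd ⟨m / p, rfl⟩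
  have hn1c : n1.Coprime (8 * m) := by
    have h6 : n1.Coprime (8 * (m / p)) := by
      have := hn1.gcd_eq
      rw [Nat.gcd_one_left] at this
      exact this
    have h7 : 8 * m = 8 * (m / p) * p := by
      rw [mul_assoc, Nat.div_mul_cancel hpm]
    rw [h7]
    exact Nat.Coprime.mul_right h6 hn1p
  -- values
  have e4 : ∀ n : ℕ, n % 8 = 1 → ZMod.χ₄ (n : ZMod 4) = 1 := by
    intro n hn
    rw [ZMod.χ₄_nat_eq_if_mod_four, if_neg (by omega), if_pos (by omega)]
  have e8 : ∀ n : ℕ, n % 8 = 1 → ZMod.χ₈ (n : ZMod 8) = 1 := by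
    intro n hn
    rw [ZMod.χ₈_nat_eq_if_mod_eight, if_neg (by omega), if_pos (by omega)]
  have e43 : ZMod.χ₄ (n3 : ZMod 4) = -1 := by
    rw [ZMod.χ₄_nat_eq_if_mod_four, if_neg (by omega), if_neg (by omega)]
  have e83 : ZMod.χ₈ (n3 : ZMod 8) = -1 := by
    rw [ZMod.χ₈_nat_eq_if_mod_eight, if_neg (by omega), if_neg (by omega)]
  have e45 : ZMod.χ₄ (n5 : ZMod 4) = 1 := by
    rw [ZMod.χ₄_nat_eq_if_mod_four, if_neg (by omega), if_pos (by omega)]
  have e85 : ZMod.χ₈ (n5 : ZMod 8) = -1 := by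
    rw [ZMod.χ₈_nat_eq_if_mod_eight, if_neg (by omega), if_neg (by omega)]
  have gA := bb3e_chi4 m
  have gB := bb3e_chi8 m
  have gC := bb3e_jac m hm0
  refine ⟨bb3eR (8 * m) (fun n => ZMod.χ₄ (n : ZMod 4)),
    bb3eR (8 * m) (fun n => ZMod.χ₈ (n : ZMod 8)),
    bb3eR (8 * m) (fun n => jacobiSym (n : ℤ) m), gA.rc hq n3 hn3c e43, gB.rc hq n3 hn3c e83,
    gC.rc hq n1 hn1c hn1j, ?_, ?_, ?_, ?_, ?_⟩
  · rw [bb3eR_mul]
    exact (gA.prod gB).rc hq n5 hn5c (by rw [e45, e85]; norm_num)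
  · rw [bb3eR_mul]
    exact (gA.prod gC).rc hq n1 hn1c (by rw [e4 n1 hn18, hn1j]; norm_num)
  · rw [bb3eR_mul]
    exact (gB.prod gC).rc hq n1 hn1c (by rw [e8 n1 hn18, hn1j]; norm_num)
  · have h9 : (fun n => bb3eR (8 * m) (fun n => ZMod.χ₄ (n : ZMod 4)) n *
        (bb3eR (8 * m) (fun n => ZMod.χ₈ (n : ZMod 8)) n *
          bb3eR (8 * m) (fun n => jacobiSym (n : ℤ) m) n)) =
        bb3eR (8 * m) (fun n => ZMod.χ₄ (n : ZMod 4) *
          (ZMod.χ₈ (n : ZMod 8) * jacobiSym (n : ℤ) m)) := by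
      rw [← bb3eR_mul, ← bb3eR_mul]
    rw [h9]
    exact (gA.prod (gB.prod gC)).rc hq n1 hn1c (by
      rw [e4 n1 hn18, e8 n1 hn18, hn1j]; norm_num)
  · intro p hp ha hb hc
    unfold bb3eR at ha hb hc
    by_cases h1 : p.Coprime (8 * m)
    · rw [if_pos h1] at ha hb hc
      have ha' : ZMod.χ₄ (p : ZMod 4) = 1 := by exact_mod_cast ha
      have hb' : ZMod.χ₈ (p : ZMod 8) = -1 := by exact_mod_cast hb
      have hc' : jacobiSym (p : ℤ) m = -1 := by exact_mod_cast hc
      refine ⟨?_, hc'⟩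
      rw [ZMod.χ₄_nat_eq_if_mod_four] at ha'
      rw [ZMod.χ₈_nat_eq_if_mod_eight] at hb'
      split_ifs at ha' with h2 h3
      split_ifs at hb' with h4
      omega
    · rw [if_neg h1] at ha
      norm_num at ha

end Pool.Agent.helper7.OC
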